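import Pool.Agent.Y159.TG.Stm

/-!
# Project TG: assembly of the counting lemma
-/

set_option autoImplicit false

open Polynomial Finset
open scoped Classical

namespace Pool.Agent.Y261.TG

open Pool.Agent.Y159.TG

theorem card_le_interval (S : Finset ℤ) (x H : ℝ) (hH : 0 ≤ H)
    (hS : ∀ t ∈ S, x ≤ (t : ℝ) ∧ (t : ℝ) ≤ x + H) : (S.card : ℝ) ≤ H + 1 := by
  have h1 : S ⊆ Icc ⌈x⌉ ⌊x + H⌋ := by
    intro t ht
    rw [mem_Icc]
    exact ⟨Int.ceil_le.2 (hS t ht).1, Int.le_floor.2 (hS t ht).2⟩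
  have h2 := card_le_card h1
  rw [Int.card_Icc] at h2
  have h3 : ((⌊x + H⌋ + 1 - ⌈x⌉).toNat : ℝ) ≤ H + 1 := by
    have h4 : (((⌊x + H⌋ + 1 - ⌈x⌉).toNat : ℤ) : ℝ) ≤ H + 1 := by
      rw [Int.toNat_eq_max]
      have h5 := Int.floor_le (x + H)
      have h6 := Int.le_ceil x
      rw [Int.cast_max]
      refine max_le ?_ ?_
      · push_cast
        linarith
      · push_cast
        linarith
    exact_mod_cast h4
  calc (S.card : ℝ) ≤ ((⌊x + H⌋ + 1 - ⌈x⌉).toNat : ℝ) := by exact_mod_cast h2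
    _ ≤ H + 1 := h3

theorem card_primes (N : ℕ) (hN : N ≠ 0) (H δ B : ℝ) (hH : 1 < H) (hδ : 0 < δ)
    (hB : (N : ℝ) ≤ H ^ B) :
    ((N.primeFactors.filter fun p : ℕ => H ^ δ < (p : ℝ)).card : ℝ) ≤ B / δ := by
  set E := N.primeFactors.filter fun p : ℕ => H ^ δ < (p : ℝ) with hE
  have h0 : (0 : ℝ) < H := by linarith
  have h1 : (∏ p ∈ E, p) ∣ N :=
    (prod_dvd_prod_of_subset _ _ _ (filter_subset _ _)).trans (Nat.prod_primeFactors_dvd N)
  have h2 : ((∏ p ∈ E, p : ℕ) : ℝ) ≤ N := by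
    exact_mod_cast Nat.le_of_dvd (Nat.pos_of_ne_zero hN) h1
  have h3 : (H ^ δ) ^ E.card ≤ ((∏ p ∈ E, p : ℕ) : ℝ) := by
    rw [Nat.cast_prod, ← prod_const]
    exact prod_le_prod (fun p _ => Real.rpow_nonneg h0.le _)
      (fun p hp => (mem_filter.1 hp).2.le)
  have h4 : H ^ (δ * E.card) ≤ H ^ B := by
    rw [Real.rpow_mul_natCast h0.le]
    linarith
  have h5 : δ * E.card ≤ B := (Real.rpow_le_rpow_left_iff hH).1 h4
  rw [le_div_iff₀ hδ]
  linarith

theorem cnt (hls : TaskLS) (hres : TaskRes) (hsum : TaskSum) : TaskCnt := by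
  intro f hf δ A hδ hδ4 hA
  obtain ⟨K, P0', n, ρ, hK, hn, hρ, hr⟩ := hres f hf
  obtain ⟨H0, hH0, hs⟩ := hsum K ⌈(3 * A + 1) / δ⌉₊ δ hK hδ hδ4
  set H1 : ℝ := max H0 (max (|(n : ℝ)| + |(ρ : ℝ)|) (max (((P0' : ℝ) + 1) ^ (1 / δ)) 3)) with hH1
  have a1 : H0 ≤ H1 := le_max_left _ _
  have a2 : |(n : ℝ)| + |(ρ : ℝ)| ≤ H1 := (le_max_left _ _).trans (le_max_right _ _)
  have a3 : ((P0' : ℝ) + 1) ^ (1 / δ) ≤ H1 :=
    (le_max_left _ _).trans ((le_max_right _ _).trans (le_max_right _ _))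
  have a4 : 3 ≤ H1 := (le_max_right _ _).trans ((le_max_right _ _).trans (le_max_right _ _))
  refine ⟨2 * H1 + 4 / δ, max P0' ρ.natAbs, by positivity, ?_⟩
  intro x H hH k m hk hkA hmA ⟨p1, hp1, hp1P, hp1m, hp1k⟩ S hS
  have hpow1 : 1 ≤ H ^ (1 / 2 + 2 * δ) := Real.one_le_rpow hH (by positivity)
  have hpow0 : 0 ≤ H ^ (1 / 2 + 2 * δ) := by linarith
  have h4δ : 0 ≤ 4 / δ := by positivity
  rcases lt_or_ge H H1 with hlt | hge
  · have h1 := card_le_interval S x H (by linarith) fun t ht => ⟨(hS t ht).1, (hS t ht).2.1⟩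
    nlinarith
  have hHpos : (0 : ℝ) < H := by linarith
  have hH1' : 1 < H := by linarith
  -- the number `R`
  set R : ℤ := n * m + k ^ 2 * ρ with hR
  have hp1' : Prime (p1 : ℤ) := Nat.prime_iff_prime_int.1 hp1
  have hR0 : R ≠ 0 := by
    intro h0
    have h1 : (p1 : ℤ) ∣ k ^ 2 * ρ := by
      have h2 : k ^ 2 * ρ = -(n * m) := by
        rw [hR] at h0
        linarith
      rw [h2]
      exact (hp1m.mul_left n).neg_right
    rcases hp1'.dvd_or_dvd h1 with h2 | h2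
    · exact hp1k (hp1'.dvd_of_dvd_pow h2)
    · have h3 : p1 ∣ ρ.natAbs := Int.natCast_dvd.1 h2
      have h4 := Nat.le_of_dvd (Int.natAbs_pos.2 hρ) h3
      have h5 := le_max_right P0' ρ.natAbs
      omega
  have hkR0 : (k * R).natAbs ≠ 0 := by
    rw [Int.natAbs_ne_zero]
    exact mul_ne_zero hk hR0
  have hkR : (((k * R).natAbs : ℕ) : ℝ) ≤ H ^ (3 * A + 1) := by
    have e0 : (((k * R).natAbs : ℕ) : ℝ) = |(k : ℝ)| * |(R : ℝ)| := by
      rw [Nat.cast_natAbs, Int.cast_abs, Int.cast_mul, abs_mul]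
    have e1 : H ^ (3 * A + 1) = H ^ A * (H ^ A * (H ^ A * H)) := by
      rw [show 3 * A + 1 = A + (A + (A + 1)) by ring, Real.rpow_add hHpos, Real.rpow_add hHpos,
        Real.rpow_add hHpos, Real.rpow_one]
    have e2 : 1 ≤ H ^ A := Real.one_le_rpow hH (by linarith)
    set X := H ^ A with hX
    have e3 : |(R : ℝ)| ≤ |(n : ℝ)| * X + X ^ 2 * |(ρ : ℝ)| := by
      have e4 : (R : ℝ) = n * m + (k : ℝ) ^ 2 * ρ := by rw [hR]; push_cast; ring
      rw [e4]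
      refine (abs_add_le _ _).trans ?_
      rw [abs_mul, abs_mul, abs_pow]
      refine add_le_add (mul_le_mul_of_nonneg_left hmA (abs_nonneg _)) ?_
      exact mul_le_mul_of_nonneg_right (pow_le_pow_left₀ (abs_nonneg _) hkA 2) (abs_nonneg _)
    have e5 : |(n : ℝ)| * X + X ^ 2 * |(ρ : ℝ)| ≤ X * X * H := by
      have e6 : |(n : ℝ)| * X ≤ |(n : ℝ)| * (X * X) :=
        mul_le_mul_of_nonneg_left (by nlinarith) (abs_nonneg _)
      have e7 : (|(n : ℝ)| + |(ρ : ℝ)|) * (X * X) ≤ H * (X * X) :=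
        mul_le_mul_of_nonneg_right (a2.trans hge) (by positivity)
      nlinarith
    rw [e0, e1]
    calc |(k : ℝ)| * |(R : ℝ)| ≤ X * (X * X * H) :=
          mul_le_mul hkA (e3.trans e5) (abs_nonneg _) (by positivity)
      _ = X * (X * (X * H)) := by ring
  set E : Finset ℕ := (k * R).natAbs.primeFactors.filter fun p : ℕ => H ^ δ < (p : ℝ) with hE
  have hEc : E.card ≤ ⌈(3 * A + 1) / δ⌉₊ := by
    have h1 := card_primes (k * R).natAbs hkR0 H δ (3 * A + 1) hH1' hδ hkR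
    have h2 : (E.card : ℝ) ≤ (⌈(3 * A + 1) / δ⌉₊ : ℝ) := h1.trans (Nat.le_ceil _)
    exact_mod_cast h2
  obtain ⟨s1, s2⟩ := hs H (a1.trans hge) E hEc
  set P := (range (⌊H ^ (1 / 2 + 2 * δ)⌋₊ + 1)).filter
          (fun p : ℕ => p.Prime ∧ H ^ δ < (p : ℝ) ∧ p ∉ E) with hP
  have hPδ : (P0' : ℝ) + 1 ≤ H ^ δ := by
    have h1 : ((P0' : ℝ) + 1) = (((P0' : ℝ) + 1) ^ (1 / δ)) ^ δ := by
      rw [← Real.rpow_mul (by positivity), one_div, inv_mul_cancel₀ hδ.ne', Real.rpow_one]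
    rw [h1]
    exact Real.rpow_le_rpow (by positivity) (a3.trans hge) hδ.le
  have key := hls S H hH (by
      intro a ha b hb
      have h1 := hS a ha
      have h2 := hS b hb
      push_cast
      rw [abs_le]
      constructor <;> linarith [h1.1, h1.2.1, h2.1, h2.2.1]) P
    (fun p => (p : ℝ) / 2 + K * √(p : ℝ)) (by
      intro p hp
      obtain ⟨-, hpp, hpH, hpE⟩ := mem_filter.1 hp
      have hp0 : (0 : ℝ) < p := by exact_mod_cast hpp.pos
      refine ⟨hpp, by positivity, ?_⟩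
      have hnd : ¬ (p : ℤ) ∣ k * R := by
        intro h
        apply hpE
        rw [hE, mem_filter, Nat.mem_primeFactors]
        exact ⟨⟨hpp, Int.natCast_dvd.1 h, hkR0⟩, hpH⟩
      have hP0 : P0' < p := by
        have : (P0' : ℝ) < p := by linarith
        exact_mod_cast this
      refine hr p hpp hP0 k m (fun h => hnd (h.mul_right R)) (fun h => hnd (h.mul_left k)) _ ?_
      intro y hy
      obtain ⟨t, ht, rfl⟩ := mem_image.1 hy
      obtain ⟨-, -, u, hu⟩ := hS t ht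
      refine ⟨(u : ZMod p), ?_⟩
      have h1 : ((k ^ 2 * f.eval t + m : ℤ) : ZMod p) = ((u ^ 2 : ℤ) : ZMod p) := by rw [hu]
      push_cast at h1
      have h2 : (f.map (Int.castRingHom (ZMod p))).eval (t : ZMod p) = ((f.eval t : ℤ) : ZMod p) :=
        eval_intCast_map _ f t
      rw [h2, h1, sq])
  have hlog : 1 ≤ Real.log H := by
    have h1 : Real.exp 1 ≤ H := by
      have := Real.exp_one_lt_d9
      linarith
    rwa [Real.le_log_iff_exp_le hHpos]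
  have hS0 : (0 : ℝ) ≤ S.card := by positivity
  have hb : δ ≤ ∑ p ∈ P, Real.log p / ((p : ℝ) / 2 + K * √(p : ℝ)) - Real.log H := by
    have : δ * 1 ≤ δ * Real.log H := mul_le_mul_of_nonneg_left hlog hδ.le
    linarith
  have h5 : (S.card : ℝ) * δ ≤ 4 * H ^ (1 / 2 + 2 * δ) := by
    calc (S.card : ℝ) * δ ≤ (S.card : ℝ) *
          (∑ p ∈ P, Real.log p / ((p : ℝ) / 2 + K * √(p : ℝ)) - Real.log H) :=
          mul_le_mul_of_nonneg_left hb hS0
      _ ≤ ∑ p ∈ P, Real.log p := key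
      _ ≤ _ := s2
  have h6 : (S.card : ℝ) ≤ 4 / δ * H ^ (1 / 2 + 2 * δ) := by
    rw [div_mul_eq_mul_div, le_div_iff₀ hδ]
    exact h5
  have h7 : 0 ≤ 2 * H1 * H ^ (1 / 2 + 2 * δ) := by positivity
  linarith

end Pool.Agent.Y261.TG
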